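import Mathlib

open Finset

namespace Pool.Agent.Results.MP_122049_pr.LargeAlphabet

/-- Words of length `n` over the alphabet `Fin k` with `k` letters. -/
abbrev Word (k n : ℕ) : Type := Fin n → Fin k

/-- `U` and `V` have a common subsequence of length `m`: there are positions
`f 0 < ... < f (m - 1)` of `U` and `g 0 < ... < g (m - 1)` of `V` carrying the same letters. -/
def HasCommon {k n : ℕ} (U V : Word k n) (m : ℕ) : Prop :=
  ∃ f g : Fin m → Fin n, StrictMono f ∧ StrictMono g ∧ ∀ s, U (f s) = V (g s)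

/-- The length of a longest common subsequence of `U` and `V`. -/
noncomputable def lcs {k n : ℕ} (U V : Word k n) : ℕ := sSup {m | HasCommon U V m}

open Classical in
/-- The probability that the longest common subsequence of two independent uniformly random words
of length `n` over `k` letters has length `i` (proportion of the pairs of words). -/
noncomputable def prob (k n : ℕ) (i : ℤ) : ℝ :=
  ((univ.filter fun p : Word k n × Word k n => (lcs p.1 p.2 : ℤ) = i).card : ℝ) /
    (Fintype.card (Word k n × Word k n) : ℝ)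

/-- Log-concavity of a distribution on the integers. -/
def IsLogConcave (p : ℤ → ℝ) : Prop := ∀ i : ℤ, p (i - 1) * p (i + 1) ≤ p i ^ 2

/-! ### basic facts -/

section basic

variable {k n : ℕ} {U V : Word k n}

lemma HasCommon.le {m : ℕ} (h : HasCommon U V m) : m ≤ n := by
  obtain ⟨f, _, hf, _, _⟩ := h
  have := Fintype.card_le_of_injective f hf.injective
  simpa using this

lemma hasCommon_zero : HasCommon U V 0 :=
  ⟨fun x => x.elim0, fun x => x.elim0, fun x => x.elim0, fun x => x.elim0, fun x => x.elim0⟩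

lemma bdd : BddAbove {m | HasCommon U V m} := ⟨n, fun _ h => h.le⟩

lemma lcs_spec : HasCommon U V (lcs U V) :=
  Nat.sSup_mem ⟨0, hasCommon_zero⟩ bdd

lemma le_lcs {m : ℕ} (h : HasCommon U V m) : m ≤ lcs U V := le_csSup bdd h

lemma lcs_le : lcs U V ≤ n := lcs_spec.le

lemma HasCommon.mono {m m' : ℕ} (h : HasCommon U V m) (hm : m' ≤ m) : HasCommon U V m' := by
  obtain ⟨f, g, hf, hg, e⟩ := h
  refine ⟨fun s => f (Fin.castLE hm s), fun s => g (Fin.castLE hm s), ?_, ?_, fun s => e _⟩
  · intro a b hab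
    exact hf (Fin.strictMono_castLE hm hab)
  · intro a b hab
    exact hg (Fin.strictMono_castLE hm hab)

lemma hasCommon_one {s t : Fin n} (h : U s = V t) : HasCommon U V 1 := by
  refine ⟨fun _ => s, fun _ => t, ?_, ?_, fun _ => h⟩
  · intro a b hab
    exact absurd (Subsingleton.elim a b) hab.ne
  · intro a b hab
    exact absurd (Subsingleton.elim a b) hab.ne

lemma hasCommon_two {s s' t t' : Fin n} (hs : s < s') (ht : t < t') (h : U s = V t)
    (h' : U s' = V t') : HasCommon U V 2 := by
  refine ⟨![s, s'], ![t, t'], ?_, ?_, ?_⟩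
  · intro a b hab
    fin_cases a <;> fin_cases b <;> first | exact hs | exact absurd hab (by decide)
  · intro a b hab
    fin_cases a <;> fin_cases b <;> first | exact ht | exact absurd hab (by decide)
  · intro a
    fin_cases a
    · exact h
    · exact h'

lemma lcs_eq_zero_iff : lcs U V = 0 ↔ ∀ s t, U s ≠ V t := by
  constructor
  · intro h s t hst
    have := le_lcs (hasCommon_one hst)
    omega
  · intro h
    by_contra h0
    have h1 : HasCommon U V 1 := lcs_spec.mono (by omega)
    obtain ⟨f, g, _, _, e⟩ := h1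
    exact h _ _ (e 0)

lemma no_two (h : lcs U V ≤ 1) {s s' t t' : Fin n} (hs : s < s') (ht : t < t')
    (h1 : U s = V t) (h2 : U s' = V t') : False := by
  have := le_lcs (hasCommon_two hs ht h1 h2)
  omega

end basic

open Classical in
/-- number of pairs with a given value -/
noncomputable def N (k n i : ℕ) : ℕ :=
  (univ.filter fun p : Word k n × Word k n => lcs p.1 p.2 = i).card

lemma N_pos {k n i : ℕ} (hk : 2 ≤ k) (hi : i ≤ n) : 0 < N k n i := by
  classical
  unfold N
  rw [Finset.card_pos]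
  let z : Fin k := ⟨0, by omega⟩
  let o : Fin k := ⟨1, by omega⟩
  have hzo : z ≠ o := by
    intro h
    have := congrArg Fin.val h
    simp [z, o] at this
  let U : Word k n := fun _ => z
  let V : Word k n := fun t => if t.val < i then z else o
  refine ⟨(U, V), ?_⟩
  rw [Finset.mem_filter]
  refine ⟨Finset.mem_univ _, ?_⟩
  apply le_antisymm
  · obtain ⟨f, g, hf, hg, e⟩ := (lcs_spec : HasCommon U V (lcs U V))
    have h1 : ∀ s, (g s).val < i := by
      intro s
      by_contra h
      have h2 := e s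
      simp only [U, V] at h2
      rw [if_neg h] at h2
      exact hzo h2
    have := Fintype.card_le_of_injective (fun s => (⟨(g s).val, h1 s⟩ : Fin i)) (by
      intro a b hab
      apply hg.injective
      ext
      simpa using hab)
    simpa using this
  · apply le_lcs
    refine ⟨fun s => Fin.castLE hi s, fun s => Fin.castLE hi s, ?_, ?_, ?_⟩
    · exact Fin.strictMono_castLE hi
    · exact Fin.strictMono_castLE hi
    · intro s
      simp only [U, V]
      rw [if_pos]
      exact s.2

lemma N_eq_zero {k n i : ℕ} (hi : n < i) : N k n i = 0 := by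
  classical
  unfold N
  rw [Finset.card_eq_zero, Finset.filter_eq_empty_iff]
  intro p _ h
  have := (lcs_le : lcs p.1 p.2 ≤ n)
  omega

/-! ### boxes -/

section boxes

variable {k n : ℕ}

/-- product bound -/
lemma prod_ite_le (E : Finset (Fin n)) (x y : ℕ) (hE : E.card < n) :
    ∏ s : Fin n, (if s ∈ E then y else x) ≤ y ^ E.card * x ^ n := by
  classical
  rw [Finset.prod_ite, Finset.prod_const, Finset.prod_const]
  have h1 : (univ.filter (fun s => s ∈ E)).card = E.card := by
    congr 1
    ext s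
    simp
  have h2 : (univ.filter (fun s => ¬ s ∈ E)).card = n - E.card := by
    have h3 : (univ.filter (fun s => ¬ s ∈ E)) = Eᶜ := by
      ext s
      simp
    rw [h3, Finset.card_compl, Fintype.card_fin]
  rw [h1, h2]
  apply Nat.mul_le_mul_left
  rcases Nat.eq_zero_or_pos x with rfl | hx
  · rw [zero_pow (by omega)]
    exact Nat.zero_le _
  · exact Nat.pow_le_pow_right hx (by omega)

lemma card_box_le (E : Finset (Fin n)) (x : ℕ) (hE : E.card < n)
    (B : Fin n → Finset (Fin k)) (hB : ∀ s, s ∉ E → (B s).card ≤ x) :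
    (Fintype.piFinset B).card ≤ k ^ E.card * x ^ n := by
  classical
  rw [Fintype.card_piFinset]
  refine le_trans ?_ (prod_ite_le E x k hE)
  apply Finset.prod_le_prod'
  intro s _
  split_ifs with h
  · calc (B s).card ≤ (univ : Finset (Fin k)).card := Finset.card_le_univ _
      _ = k := by rw [Finset.card_univ, Fintype.card_fin]
  · exact hB s h

/-- words over `S` -/
def wordsIn (n : ℕ) (S : Finset (Fin k)) : Finset (Word k n) := Fintype.piFinset fun _ => S

lemma mem_over {S : Finset (Fin k)} {U : Word k n} : U ∈ wordsIn n S ↔ ∀ s, U s ∈ S :=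
  Fintype.mem_piFinset

lemma card_over (S : Finset (Fin k)) : (wordsIn n S).card = S.card ^ n := by
  unfold wordsIn
  rw [Fintype.card_piFinset, Finset.prod_const, Finset.card_univ, Fintype.card_fin]

/-- `∑_S |S|^n |S^c|^n` -/
def F (k n : ℕ) : ℕ := ∑ S : Finset (Fin k), S.card ^ n * Sᶜ.card ^ n

lemma N_zero_le_F : N k n 0 ≤ F k n := by
  classical
  unfold N F
  calc (univ.filter fun p : Word k n × Word k n => lcs p.1 p.2 = 0).card
      ≤ ((univ : Finset (Finset (Fin k))).biUnion fun S => wordsIn n S ×ˢ wordsIn n Sᶜ).card := by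
        apply Finset.card_le_card
        intro p hp
        rw [Finset.mem_filter, lcs_eq_zero_iff] at hp
        rw [Finset.mem_biUnion]
        refine ⟨univ.image p.1, Finset.mem_univ _, ?_⟩
        rw [Finset.mem_product, mem_over, mem_over]
        refine ⟨fun s => Finset.mem_image_of_mem _ (Finset.mem_univ _), fun t => ?_⟩
        rw [Finset.mem_compl, Finset.mem_image]
        rintro ⟨s, _, h⟩
        exact hp.2 s t h
    _ ≤ ∑ S : Finset (Fin k), (wordsIn n S ×ˢ wordsIn n Sᶜ).card := Finset.card_biUnion_le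
    _ = ∑ S : Finset (Fin k), S.card ^ n * Sᶜ.card ^ n := by
        apply Finset.sum_congr rfl
        intro S _
        rw [Finset.card_product, card_over, card_over]

lemma F_le_two_N_zero (hn : 1 ≤ n)
    (h : ∀ a : ℕ, 1 ≤ a → a ≤ k → 2 * a * (a - 1) ^ n ≤ a ^ n) : F k n ≤ 2 * N k n 0 := by
  classical
  let sur : Finset (Fin k) → Finset (Word k n) := fun S => univ.filter fun U => univ.image U = S
  have h1 : ∀ S : Finset (Fin k), S.card ^ n ≤ 2 * (sur S).card := by
    intro S
    rcases Nat.eq_zero_or_pos S.card with h0 | h0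
    · rw [h0, zero_pow (by omega)]
      exact Nat.zero_le _
    · have hle : S.card ≤ k := by
        calc S.card ≤ (univ : Finset (Fin k)).card := Finset.card_le_univ _
          _ = k := by rw [Finset.card_univ, Fintype.card_fin]
      have h2 : S.card ^ n ≤ (sur S).card + S.card * (S.card - 1) ^ n := by
        calc S.card ^ n = (wordsIn n S).card := (card_over S).symm
          _ ≤ (sur S ∪ S.biUnion fun l => wordsIn n (S.erase l)).card := by
            apply Finset.card_le_card
            intro U hU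
            rw [mem_over] at hU
            rw [Finset.mem_union]
            by_cases hs : univ.image U = S
            · left
              exact Finset.mem_filter.mpr ⟨Finset.mem_univ _, hs⟩
            · right
              have hsub : univ.image U ⊆ S := by
                intro x hx
                rw [Finset.mem_image] at hx
                obtain ⟨s, _, rfl⟩ := hx
                exact hU s
              obtain ⟨l, hl, hl2⟩ : ∃ l ∈ S, l ∉ univ.image U := by
                by_contra hcon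
                push Not at hcon
                exact hs (Finset.Subset.antisymm hsub hcon)
              rw [Finset.mem_biUnion]
              refine ⟨l, hl, ?_⟩
              rw [mem_over]
              intro s
              rw [Finset.mem_erase]
              refine ⟨?_, hU s⟩
              rintro rfl
              exact hl2 (Finset.mem_image_of_mem _ (Finset.mem_univ _))
          _ ≤ (sur S).card + (S.biUnion fun l => wordsIn n (S.erase l)).card :=
            Finset.card_union_le _ _
          _ ≤ (sur S).card + S.card * (S.card - 1) ^ n := by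
            apply Nat.add_le_add_left
            apply Finset.card_biUnion_le_card_mul
            intro l hl
            rw [card_over, Finset.card_erase_of_mem hl]
      have h3 := h S.card h0 hle
      rw [mul_assoc] at h3
      omega
  unfold F
  calc ∑ S : Finset (Fin k), S.card ^ n * Sᶜ.card ^ n
      ≤ ∑ S : Finset (Fin k), 2 * ((sur S) ×ˢ wordsIn n Sᶜ).card := by
        apply Finset.sum_le_sum
        intro S _
        rw [Finset.card_product, card_over, ← mul_assoc]
        exact Nat.mul_le_mul_right _ (h1 S)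
    _ = 2 * ∑ S : Finset (Fin k), ((sur S) ×ˢ wordsIn n Sᶜ).card := by rw [Finset.mul_sum]
    _ = 2 * ((univ : Finset (Finset (Fin k))).biUnion fun S => (sur S) ×ˢ wordsIn n Sᶜ).card := by
        rw [Finset.card_biUnion]
        intro S _ S' _ hne
        rw [Function.onFun, Finset.disjoint_left]
        intro p hp hp'
        rw [Finset.mem_product] at hp hp'
        have e1 := (Finset.mem_filter.mp hp.1).2
        have e2 := (Finset.mem_filter.mp hp'.1).2
        exact hne (e1.symm.trans e2)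
    _ ≤ 2 * N k n 0 := by
        apply Nat.mul_le_mul_left
        unfold N
        apply Finset.card_le_card
        intro p hp
        rw [Finset.mem_biUnion] at hp
        obtain ⟨S, _, hp⟩ := hp
        rw [Finset.mem_product, mem_over] at hp
        rw [Finset.mem_filter, lcs_eq_zero_iff]
        refine ⟨Finset.mem_univ _, fun s t hst => ?_⟩
        have e1 := (Finset.mem_filter.mp hp.1).2
        have e2 := hp.2 t
        rw [Finset.mem_compl, ← e1] at e2
        exact e2 (hst ▸ Finset.mem_image_of_mem _ (Finset.mem_univ _))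

end boxes

/-! ### pairs with longest common subsequence of length one -/

section one

variable {k n : ℕ}

/-- words with at most one letter outside `S` -/
def oneOut (n : ℕ) (S : Finset (Fin k)) : Finset (Word k n) :=
  univ.filter fun U => (univ.filter fun s => U s ∉ S).card ≤ 1

lemma card_oneOut (hn : 2 ≤ n) (S : Finset (Fin k)) :
    (oneOut n S).card ≤ (1 + n * k) * S.card ^ n := by
  classical
  calc (oneOut n S).card
      ≤ (wordsIn n S ∪ (univ : Finset (Fin n)).biUnion fun s0 =>
          Fintype.piFinset fun s => if s ∈ ({s0} : Finset (Fin n)) then univ else S).card := by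
        apply Finset.card_le_card
        intro U hU
        have hU2 := (Finset.mem_filter.mp hU).2
        rw [Finset.mem_union]
        by_cases h : ∀ s, U s ∈ S
        · left
          exact mem_over.mpr h
        · right
          push Not at h
          obtain ⟨s0, hs0⟩ := h
          rw [Finset.mem_biUnion]
          refine ⟨s0, Finset.mem_univ _, ?_⟩
          rw [Fintype.mem_piFinset]
          intro s
          split_ifs with h1
          · exact Finset.mem_univ _
          · by_contra h2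
            apply h1
            rw [Finset.mem_singleton]
            exact Finset.card_le_one.mp hU2 s (by simp [h2]) s0 (by simp [hs0])
    _ ≤ (wordsIn n S).card + ((univ : Finset (Fin n)).biUnion fun s0 =>
          Fintype.piFinset fun s => if s ∈ ({s0} : Finset (Fin n)) then univ else S).card :=
        Finset.card_union_le _ _
    _ ≤ S.card ^ n + n * (k * S.card ^ n) := by
        apply Nat.add_le_add
        · rw [card_over]
        · have h := Finset.card_biUnion_le_card_mul (univ : Finset (Fin n)) (fun s0 =>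
            Fintype.piFinset fun s => if s ∈ ({s0} : Finset (Fin n)) then univ else S)
            (k * S.card ^ n) (by
              intro s0 _
              have h2 := card_box_le ({s0} : Finset (Fin n)) S.card (by simp; omega)
                (fun s => if s ∈ ({s0} : Finset (Fin n)) then univ else S) (by
                  intro s hs
                  rw [if_neg hs])
              simpa using h2)
          rwa [Finset.card_univ, Fintype.card_fin] at h
    _ = (1 + n * k) * S.card ^ n := by ring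

/-- box with few free positions -/
def boxA (S : Finset (Fin k)) (e : Fin k → Fin n) : Finset (Word k n) :=
  Fintype.piFinset fun s => if s ∈ univ.image e then univ else S

/-- box with few free positions and two separated letters -/
def boxB (S : Finset (Fin k)) (e : Fin k → Fin n) (l1 l2 : Fin k) (t0 : Fin n) :
    Finset (Word k n) :=
  Fintype.piFinset fun t =>
    if t ∈ univ.image e then univ else if t < t0 then S.erase l1 else S.erase l2

lemma card_image_le' (e : Fin k → Fin n) : (univ.image e).card ≤ k := by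
  calc (univ.image e).card ≤ (univ : Finset (Fin k)).card := Finset.card_image_le
    _ = k := by rw [Finset.card_univ, Fintype.card_fin]

lemma card_boxA (hk : 1 ≤ k) (hn : k < n) (S : Finset (Fin k)) (e : Fin k → Fin n) :
    (boxA S e).card ≤ k ^ k * S.card ^ n := by
  have h := card_box_le (univ.image e) S.card (lt_of_le_of_lt (card_image_le' e) hn)
    (fun s => if s ∈ univ.image e then univ else S) (by
      intro s hs
      rw [if_neg hs])
  refine le_trans h ?_
  exact Nat.mul_le_mul_right _ (Nat.pow_le_pow_right hk (card_image_le' e))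

lemma card_boxB (hk : 1 ≤ k) (hn : k < n) (S : Finset (Fin k)) (e : Fin k → Fin n)
    (l1 l2 : Fin k) (h1 : l1 ∈ S) (h2 : l2 ∈ S) (t0 : Fin n) :
    (boxB S e l1 l2 t0).card ≤ k ^ k * (S.card - 1) ^ n := by
  have h := card_box_le (univ.image e) (S.card - 1) (lt_of_le_of_lt (card_image_le' e) hn)
    (fun t => if t ∈ univ.image e then univ else if t < t0 then S.erase l1 else S.erase l2) (by
      intro s hs
      rw [if_neg hs]
      split_ifs
      · rw [Finset.card_erase_of_mem h1]
      · rw [Finset.card_erase_of_mem h2])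
  refine le_trans h ?_
  exact Nat.mul_le_mul_right _ (Nat.pow_le_pow_right hk (card_image_le' e))

lemma exists_cover (hn : 1 ≤ n) (E : Finset (Fin n)) (hE : E.card ≤ k) :
    ∃ e : Fin k → Fin n, E ⊆ univ.image e := by
  classical
  refine ⟨fun i => if h : i.val < E.card then (E.equivFin.symm ⟨i.val, h⟩).1 else ⟨0, hn⟩, ?_⟩
  intro x hx
  rw [Finset.mem_image]
  let j := E.equivFin ⟨x, hx⟩
  refine ⟨⟨j.val, lt_of_lt_of_le j.2 hE⟩, Finset.mem_univ _, ?_⟩
  have hj : j.val < E.card := j.2
  simp only [hj, dif_pos]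
  have : E.equivFin.symm ⟨j.val, hj⟩ = ⟨x, hx⟩ := by
    rw [Equiv.symm_apply_eq]
  rw [this]

/-- the index type -/
abbrev Idx (k n : ℕ) : Type :=
  Finset (Fin k) × Fin k × Fin k × Fin n × (Fin k → Fin n) × (Fin k → Fin n)

lemma card_idx : Fintype.card (Idx k n) = 2 ^ k * (k * (k * (n * (n ^ k * n ^ k)))) := by
  simp only [Idx, Fintype.card_prod, Fintype.card_finset, Fintype.card_fun, Fintype.card_fin]

/-- box of case 2a -/
def caseA (x : Idx k n) : Finset (Word k n × Word k n) :=
  boxA x.1 x.2.2.2.2.1 ×ˢ boxB x.1ᶜ x.2.2.2.2.2 x.2.1 x.2.2.1 x.2.2.2.1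

/-- box of case 2b -/
def caseB (x : Idx k n) : Finset (Word k n × Word k n) :=
  boxB x.1 x.2.2.2.2.1 x.2.1 x.2.2.1 x.2.2.2.1 ×ˢ boxA x.1ᶜ x.2.2.2.2.2

lemma classify (hn : 1 ≤ n) (U V : Word k n) (h : lcs U V ≤ 1) :
    (∃ S : Finset (Fin k), U ∈ oneOut n S ∧ V ∈ oneOut n Sᶜ) ∨
    (∃ x : Idx k n, (x.2.1 ∈ x.1ᶜ ∧ x.2.2.1 ∈ x.1ᶜ) ∧ (U, V) ∈ caseA x) ∨
    (∃ x : Idx k n, (x.2.1 ∈ x.1 ∧ x.2.2.1 ∈ x.1) ∧ (U, V) ∈ caseB x) := by
  classical
  let T : Finset (Fin k) :=
    univ.filter fun l => (∃ t, V t = l) ∧ ∀ s s', U s = l → U s' = l → s = s'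
  have hT : ∀ l, l ∈ T ↔ (∃ t, V t = l) ∧ ∀ s s', U s = l → U s' = l → s = s' := by
    intro l
    simp [T]
  let EU : Finset (Fin n) := univ.filter fun s => U s ∈ T
  let EV : Finset (Fin n) := univ.filter fun t => V t ∉ T
  have hEU : ∀ s, s ∈ EU ↔ U s ∈ T := by
    intro s
    simp [EU]
  have hEV : ∀ s, s ∈ EV ↔ V s ∉ T := by
    intro s
    simp [EV]
  have injU : ∀ s ∈ EU, ∀ s' ∈ EU, U s = U s' → s = s' := by
    intro s hs s' _ e
    exact ((hT _).mp ((hEU s).mp hs)).2 s s' rfl e.symm
  have injV : ∀ t ∈ EV, ∀ t' ∈ EV, V t = V t' → t = t' := by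
    intro t ht t' _ e
    by_contra hne
    have h1 := (hEV t).mp ht
    rw [hT] at h1
    push Not at h1
    obtain ⟨s, s', hs, hs', hss⟩ := h1 ⟨t, rfl⟩
    rcases lt_or_gt_of_ne hne with hlt | hlt <;> rcases lt_or_gt_of_ne hss with hlt2 | hlt2
    · exact no_two h hlt2 hlt hs (hs'.trans e)
    · exact no_two h hlt2 hlt hs' (hs.trans e)
    · exact no_two h hlt2 hlt (hs.trans e) hs'
    · exact no_two h hlt2 hlt (hs'.trans e) hs
  have cardU : EU.card ≤ k := by
    have := Finset.card_le_card_of_injOn U (s := EU) (t := (univ : Finset (Fin k)))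
      (fun _ _ => Finset.mem_coe.mpr (Finset.mem_univ _)) (fun a ha b hb => injU a ha b hb)
    rwa [Finset.card_univ, Fintype.card_fin] at this
  have cardV : EV.card ≤ k := by
    have := Finset.card_le_card_of_injOn V (s := EV) (t := (univ : Finset (Fin k)))
      (fun _ _ => Finset.mem_coe.mpr (Finset.mem_univ _)) (fun a ha b hb => injV a ha b hb)
    rwa [Finset.card_univ, Fintype.card_fin] at this
  obtain ⟨eU, heU⟩ := exists_cover hn EU cardU
  obtain ⟨eV, heV⟩ := exists_cover hn EV cardV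
  -- membership in `boxA`
  have memA : U ∈ boxA Tᶜ eU := by
    unfold boxA
    rw [Fintype.mem_piFinset]
    intro s
    split_ifs with h1
    · exact Finset.mem_univ _
    · rw [Finset.mem_compl]
      intro h2
      exact h1 (heU ((hEU s).mpr h2))
  have memA' : V ∈ boxA T eV := by
    unfold boxA
    rw [Fintype.mem_piFinset]
    intro s
    split_ifs with h1
    · exact Finset.mem_univ _
    · by_contra h2
      exact h1 (heV ((hEV s).mpr h2))
  by_cases cU : EU.card ≤ 1
  · by_cases cV : EV.card ≤ 1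
    · left
      refine ⟨Tᶜ, ?_, ?_⟩
      · refine Finset.mem_filter.mpr ⟨Finset.mem_univ _, ?_⟩
        have : (univ.filter fun s => U s ∉ Tᶜ) = EU := by
          ext s
          simp [EU]
        rw [this]
        exact cU
      · rw [compl_compl]
        exact Finset.mem_filter.mpr ⟨Finset.mem_univ _, cV⟩
    · right; right
      rw [not_le, Finset.one_lt_card] at cV
      obtain ⟨a, ha, b, hb, hab⟩ := cV
      -- order the two positions
      obtain ⟨t1, ht1, t2, ht2, h12⟩ : ∃ t1 ∈ EV, ∃ t2 ∈ EV, t1 < t2 := by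
        rcases lt_or_gt_of_ne hab with hlt | hlt
        · exact ⟨a, ha, b, hb, hlt⟩
        · exact ⟨b, hb, a, ha, hlt⟩
      have hl1 := (hEV t1).mp ht1
      have hl2 := (hEV t2).mp ht2
      have hne : V t1 ≠ V t2 := fun e => h12.ne (injV t1 ht1 t2 ht2 e)
      -- an occurrence of `V t1` in `U`; take the first one
      have hocc : ∃ s, U s = V t1 := by
        rw [hT] at hl1
        push Not at hl1
        obtain ⟨s, s', hs, _, _⟩ := hl1 ⟨t1, rfl⟩
        exact ⟨s, hs⟩
      have hfirst : ∃ s0, U s0 = V t1 ∧ ∀ s, s < s0 → U s ≠ V t1 := by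
        let Q : Finset (Fin n) := univ.filter fun s => U s = V t1
        have hQ : Q.Nonempty := by
          obtain ⟨s, hs⟩ := hocc
          exact ⟨s, Finset.mem_filter.mpr ⟨Finset.mem_univ _, hs⟩⟩
        refine ⟨Q.min' hQ, (Finset.mem_filter.mp (Finset.min'_mem Q hQ)).2, ?_⟩
        intro s hs e
        have := Finset.min'_le Q s (Finset.mem_filter.mpr ⟨Finset.mem_univ _, e⟩)
        exact absurd this (not_le.mpr hs)
      obtain ⟨s0, hs0, hmin⟩ := hfirst
      refine ⟨(Tᶜ, V t1, V t2, s0, eU, eV), ⟨?_, ?_⟩, ?_⟩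
      · exact Finset.mem_compl.mpr hl1
      · exact Finset.mem_compl.mpr hl2
      · change (U, V) ∈ boxB Tᶜ eU (V t1) (V t2) s0 ×ˢ boxA Tᶜᶜ eV
        rw [Finset.mem_product]
        constructor
        · change U ∈ boxB Tᶜ eU (V t1) (V t2) s0
          unfold boxB
          rw [Fintype.mem_piFinset]
          intro s
          have hbase : s ∉ univ.image eU → U s ∈ Tᶜ := by
            intro h1
            rw [Finset.mem_compl]
            intro h2
            exact h1 (heU ((hEU s).mpr h2))
          split_ifs with h1 h2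
          · exact Finset.mem_univ _
          · exact Finset.mem_erase.mpr ⟨hmin s h2, hbase h1⟩
          · refine Finset.mem_erase.mpr ⟨?_, hbase h1⟩
            intro e
            have hlt : s0 < s := by
              rcases lt_or_eq_of_le (not_lt.mp h2) with h3 | h3
              · exact h3
              · exfalso
                rw [← h3, hs0] at e
                exact hne e
            exact no_two h hlt h12 hs0 e
        · rw [compl_compl]
          exact memA'
  · right; left
    rw [not_le, Finset.one_lt_card] at cU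
    obtain ⟨a, ha, b, hb, hab⟩ := cU
    obtain ⟨s1, hs1, s2, hs2, h12⟩ : ∃ s1 ∈ EU, ∃ s2 ∈ EU, s1 < s2 := by
      rcases lt_or_gt_of_ne hab with hlt | hlt
      · exact ⟨a, ha, b, hb, hlt⟩
      · exact ⟨b, hb, a, ha, hlt⟩
    have hl1 := (hEU s1).mp hs1
    have hl2 := (hEU s2).mp hs2
    have hne : U s1 ≠ U s2 := fun e => h12.ne (injU s1 hs1 s2 hs2 e)
    have hocc : ∃ t, V t = U s1 := ((hT _).mp hl1).1
    have hfirst : ∃ t0, V t0 = U s1 ∧ ∀ t, t < t0 → V t ≠ U s1 := by
      let Q : Finset (Fin n) := univ.filter fun t => V t = U s1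
      have hQ : Q.Nonempty := by
        obtain ⟨s, hs⟩ := hocc
        exact ⟨s, Finset.mem_filter.mpr ⟨Finset.mem_univ _, hs⟩⟩
      refine ⟨Q.min' hQ, (Finset.mem_filter.mp (Finset.min'_mem Q hQ)).2, ?_⟩
      intro s hs e
      have := Finset.min'_le Q s (Finset.mem_filter.mpr ⟨Finset.mem_univ _, e⟩)
      exact absurd this (not_le.mpr hs)
    obtain ⟨t0, ht0, hmin⟩ := hfirst
    refine ⟨(Tᶜ, U s1, U s2, t0, eU, eV), ⟨?_, ?_⟩, ?_⟩
    · change U s1 ∈ Tᶜᶜ
      rw [compl_compl]
      exact hl1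
    · change U s2 ∈ Tᶜᶜ
      rw [compl_compl]
      exact hl2
    · change (U, V) ∈ boxA Tᶜ eU ×ˢ boxB Tᶜᶜ eV (U s1) (U s2) t0
      rw [compl_compl, Finset.mem_product]
      refine ⟨memA, ?_⟩
      change V ∈ boxB T eV (U s1) (U s2) t0
      unfold boxB
      rw [Fintype.mem_piFinset]
      intro t
      have hbase : t ∉ univ.image eV → V t ∈ T := by
        intro h1
        by_contra h2
        exact h1 (heV ((hEV t).mpr h2))
      split_ifs with h1 h2
      · exact Finset.mem_univ _
      · exact Finset.mem_erase.mpr ⟨hmin t h2, hbase h1⟩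
      · refine Finset.mem_erase.mpr ⟨?_, hbase h1⟩
        intro e
        have hlt : t0 < t := by
          rcases lt_or_eq_of_le (not_lt.mp h2) with h3 | h3
          · exact h3
          · exfalso
            rw [← h3, ht0] at e
            exact hne e
        exact no_two h h12 hlt ht0.symm e.symm

lemma N_one_le (hk : 1 ≤ k) (hn : k < n) (hn2 : 2 ≤ n) (D : ℕ)
    (hD : ∀ a b : ℕ, a + b = k → 1 ≤ b → a ^ n * (b - 1) ^ n ≤ D) :
    N k n 1 ≤ (1 + n * k) ^ 2 * F k n +
      2 * (2 ^ k * (k * (k * (n * (n ^ k * n ^ k)))) * (k ^ k * k ^ k * D)) := by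
  classical
  let s1 : Finset (Word k n × Word k n) :=
    (univ : Finset (Finset (Fin k))).biUnion fun S => oneOut n S ×ˢ oneOut n Sᶜ
  let s2 : Finset (Word k n × Word k n) :=
    ((univ : Finset (Idx k n)).filter fun x => x.2.1 ∈ x.1ᶜ ∧ x.2.2.1 ∈ x.1ᶜ).biUnion caseA
  let s3 : Finset (Word k n × Word k n) :=
    ((univ : Finset (Idx k n)).filter fun x => x.2.1 ∈ x.1 ∧ x.2.2.1 ∈ x.1).biUnion caseB
  have hsub : (univ.filter fun p : Word k n × Word k n => lcs p.1 p.2 = 1) ⊆ s1 ∪ (s2 ∪ s3) := by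
    intro p hp
    have h := (Finset.mem_filter.mp hp).2
    rw [Finset.mem_union, Finset.mem_union]
    rcases classify (by omega) p.1 p.2 h.le with ⟨S, h1, h2⟩ | ⟨x, h1, h2⟩ | ⟨x, h1, h2⟩
    · left
      rw [Finset.mem_biUnion]
      exact ⟨S, Finset.mem_univ _, Finset.mem_product.mpr ⟨h1, h2⟩⟩
    · right; left
      rw [Finset.mem_biUnion]
      exact ⟨x, Finset.mem_filter.mpr ⟨Finset.mem_univ _, h1⟩, h2⟩
    · right; right
      rw [Finset.mem_biUnion]
      exact ⟨x, Finset.mem_filter.mpr ⟨Finset.mem_univ _, h1⟩, h2⟩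
  have c1 : s1.card ≤ (1 + n * k) ^ 2 * F k n := by
    calc s1.card ≤ ∑ S : Finset (Fin k), (oneOut n S ×ˢ oneOut n Sᶜ).card :=
          Finset.card_biUnion_le
      _ ≤ ∑ S : Finset (Fin k), (1 + n * k) ^ 2 * (S.card ^ n * Sᶜ.card ^ n) := by
          apply Finset.sum_le_sum
          intro S _
          rw [Finset.card_product]
          calc (oneOut n S).card * (oneOut n Sᶜ).card
              ≤ ((1 + n * k) * S.card ^ n) * ((1 + n * k) * Sᶜ.card ^ n) :=
                Nat.mul_le_mul (card_oneOut hn2 S) (card_oneOut hn2 Sᶜ)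
            _ = (1 + n * k) ^ 2 * (S.card ^ n * Sᶜ.card ^ n) := by ring
      _ = (1 + n * k) ^ 2 * F k n := by
          unfold F
          rw [Finset.mul_sum]
  have hcompl : ∀ S : Finset (Fin k), S.card + Sᶜ.card = k := by
    intro S
    rw [Finset.card_add_card_compl, Fintype.card_fin]
  have hidx : ∀ P : Idx k n → Prop, ∀ _ : DecidablePred P,
      ((univ : Finset (Idx k n)).filter P).card ≤
        2 ^ k * (k * (k * (n * (n ^ k * n ^ k)))) := by
    intro P _
    rw [← card_idx (k := k) (n := n), ← Finset.card_univ]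
    exact Finset.card_filter_le _ _
  have c2 : s2.card ≤ 2 ^ k * (k * (k * (n * (n ^ k * n ^ k)))) * (k ^ k * k ^ k * D) := by
    refine le_trans (Finset.card_biUnion_le_card_mul _ _ (k ^ k * k ^ k * D) ?_)
      (Nat.mul_le_mul_right _ (hidx _ _))
    intro x hx
    obtain ⟨hx1, hx2⟩ := (Finset.mem_filter.mp hx).2
    unfold caseA
    rw [Finset.card_product]
    calc (boxA x.1 x.2.2.2.2.1).card *
          (boxB x.1ᶜ x.2.2.2.2.2 x.2.1 x.2.2.1 x.2.2.2.1).card
        ≤ (k ^ k * x.1.card ^ n) * (k ^ k * (x.1ᶜ.card - 1) ^ n) :=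
          Nat.mul_le_mul (card_boxA hk hn _ _) (card_boxB hk hn _ _ _ _ hx1 hx2 _)
      _ = k ^ k * k ^ k * (x.1.card ^ n * (x.1ᶜ.card - 1) ^ n) := by ring
      _ ≤ k ^ k * k ^ k * D := by
          apply Nat.mul_le_mul_left
          exact hD _ _ (hcompl x.1) (Finset.card_pos.mpr ⟨_, hx1⟩)
  have c3 : s3.card ≤ 2 ^ k * (k * (k * (n * (n ^ k * n ^ k)))) * (k ^ k * k ^ k * D) := by
    refine le_trans (Finset.card_biUnion_le_card_mul _ _ (k ^ k * k ^ k * D) ?_)
      (Nat.mul_le_mul_right _ (hidx _ _))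
    intro x hx
    obtain ⟨hx1, hx2⟩ := (Finset.mem_filter.mp hx).2
    unfold caseB
    rw [Finset.card_product]
    calc (boxB x.1 x.2.2.2.2.1 x.2.1 x.2.2.1 x.2.2.2.1).card *
          (boxA x.1ᶜ x.2.2.2.2.2).card
        ≤ (k ^ k * (x.1.card - 1) ^ n) * (k ^ k * x.1ᶜ.card ^ n) :=
          Nat.mul_le_mul (card_boxB hk hn _ _ _ _ hx1 hx2 _) (card_boxA hk hn _ _)
      _ = k ^ k * k ^ k * (x.1ᶜ.card ^ n * (x.1.card - 1) ^ n) := by ring
      _ ≤ k ^ k * k ^ k * D := by
          apply Nat.mul_le_mul_left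
          exact hD _ _ (by rw [add_comm]; exact hcompl x.1) (Finset.card_pos.mpr ⟨_, hx1⟩)
  calc N k n 1 ≤ (s1 ∪ (s2 ∪ s3)).card := by
        unfold N
        exact Finset.card_le_card hsub
    _ ≤ s1.card + (s2.card + s3.card) :=
        le_trans (Finset.card_union_le _ _) (Nat.add_le_add_left (Finset.card_union_le _ _) _)
    _ ≤ _ := by
        rw [two_mul]
        exact Nat.add_le_add c1 (Nat.add_le_add c2 c3)

end one

/-! ### the tail -/

section tail

variable {k n : ℕ}

open Classical in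
lemma card_tail_le (m : ℕ) :
    (univ.filter fun p : Word k n × Word k n => m ≤ lcs p.1 p.2).card ≤
      (n.choose m) ^ 2 * (k ^ n * k ^ (n - m)) := by
  let I : Type := {A : Finset (Fin n) // A.card = m}
  let X : I × I → Finset (Word k n × Word k n) := fun x =>
    univ.filter fun p => ∀ s : Fin m,
      p.1 (x.1.1.orderEmbOfFin x.1.2 s) = p.2 (x.2.1.orderEmbOfFin x.2.2 s)
  have hcover : (univ.filter fun p : Word k n × Word k n => m ≤ lcs p.1 p.2) ⊆
      (univ : Finset (I × I)).biUnion X := by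
    intro p hp
    have h := (Finset.mem_filter.mp hp).2
    obtain ⟨f, g, hf, hg, e⟩ := (lcs_spec : HasCommon p.1 p.2 (lcs p.1 p.2)).mono h
    have cf : (univ.image f).card = m := by
      rw [Finset.card_image_of_injective _ hf.injective, Finset.card_univ, Fintype.card_fin]
    have cg : (univ.image g).card = m := by
      rw [Finset.card_image_of_injective _ hg.injective, Finset.card_univ, Fintype.card_fin]
    rw [Finset.mem_biUnion]
    refine ⟨(⟨univ.image f, cf⟩, ⟨univ.image g, cg⟩), Finset.mem_univ _, ?_⟩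
    refine Finset.mem_filter.mpr ⟨Finset.mem_univ _, ?_⟩
    intro s
    have ef : f = (univ.image f).orderEmbOfFin cf :=
      Finset.orderEmbOfFin_unique cf (fun x => Finset.mem_image_of_mem _ (Finset.mem_univ _)) hf
    have eg : g = (univ.image g).orderEmbOfFin cg :=
      Finset.orderEmbOfFin_unique cg (fun x => Finset.mem_image_of_mem _ (Finset.mem_univ _)) hg
    have h1 := congrFun ef s
    have h2 := congrFun eg s
    change p.1 ((univ.image f).orderEmbOfFin cf s) = p.2 ((univ.image g).orderEmbOfFin cg s)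
    rw [← h1, ← h2]
    exact e s
  have hX : ∀ x ∈ (univ : Finset (I × I)), (X x).card ≤ k ^ n * k ^ (n - m) := by
    rintro ⟨⟨A, hA⟩, ⟨B, hB⟩⟩ _
    have htarget : Fintype.card (Word k n × ({t : Fin n // t ∈ Bᶜ} → Fin k)) =
        k ^ n * k ^ (n - m) := by
      rw [Fintype.card_prod, Fintype.card_fun, Fintype.card_fun, Fintype.card_fin,
        Fintype.card_fin, Fintype.card_coe, Finset.card_compl, Fintype.card_fin, hB]
    rw [← htarget, ← Finset.card_univ]
    refine Finset.card_le_card_of_injOn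
      (fun p : Word k n × Word k n => (p.1, fun t : {t : Fin n // t ∈ Bᶜ} => p.2 t.1))
      (fun _ _ => Finset.mem_coe.mpr (Finset.mem_univ _)) ?_
    rintro ⟨U, V⟩ h1 ⟨U', V'⟩ h2 e
    have h1' := (Finset.mem_filter.mp (Finset.mem_coe.mp h1)).2
    have h2' := (Finset.mem_filter.mp (Finset.mem_coe.mp h2)).2
    simp only [Prod.mk.injEq] at e h1' h2'
    obtain ⟨eU, eV⟩ := e
    subst eU
    congr 1
    funext t
    by_cases ht : t ∈ B
    · have : t ∈ Set.range (B.orderEmbOfFin hB) := by
        rw [Finset.range_orderEmbOfFin]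
        exact Finset.mem_coe.mpr ht
      obtain ⟨s, rfl⟩ := this
      exact (h1' s).symm.trans (h2' s)
    · exact congrFun eV ⟨t, Finset.mem_compl.mpr ht⟩
  calc (univ.filter fun p : Word k n × Word k n => m ≤ lcs p.1 p.2).card
      ≤ ((univ : Finset (I × I)).biUnion X).card := Finset.card_le_card hcover
    _ ≤ (univ : Finset (I × I)).card * (k ^ n * k ^ (n - m)) :=
        Finset.card_biUnion_le_card_mul _ _ _ hX
    _ = (n.choose m) ^ 2 * (k ^ n * k ^ (n - m)) := by
        have hI : Fintype.card I = n.choose m := by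
          have := Fintype.card_finset_len (α := Fin n) m
          rw [Fintype.card_fin] at this
          exact this
        rw [Finset.card_univ, Fintype.card_prod, hI]
        ring

end tail

/-! ### consequences of log-concavity -/

section concave

variable {k n : ℕ}

lemma prob_nat (i : ℕ) : prob k n (i : ℤ) =
    (N k n i : ℝ) / (Fintype.card (Word k n × Word k n) : ℝ) := by
  classical
  unfold prob N
  congr 2
  congr 1
  ext p
  simp

lemma nat_concave (hk : 2 ≤ k) (h : IsLogConcave (prob k n)) (i : ℕ) :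
    N k n i * N k n (i + 2) ≤ N k n (i + 1) ^ 2 := by
  have hT : (0 : ℝ) < (Fintype.card (Word k n × Word k n) : ℝ) := by
    have : 0 < Fintype.card (Word k n × Word k n) := by
      rw [Fintype.card_prod, Fintype.card_fun, Fintype.card_fin, Fintype.card_fin]
      positivity
    exact_mod_cast this
  have h1 := h ((i + 1 : ℕ) : ℤ)
  have e1 : (((i + 1 : ℕ) : ℤ) - 1) = ((i : ℕ) : ℤ) := by push_cast; ring
  have e2 : (((i + 1 : ℕ) : ℤ) + 1) = ((i + 2 : ℕ) : ℤ) := by push_cast; ring
  rw [e1, e2, prob_nat, prob_nat, prob_nat, div_mul_div_comm, div_pow, ← sq,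
    div_le_div_iff_of_pos_right (by positivity)] at h1
  exact_mod_cast h1

lemma ratio (hk : 2 ≤ k) (h : IsLogConcave (prob k n)) (i : ℕ) :
    N k n (i + 1) * N k n 0 ≤ N k n i * N k n 1 := by
  induction i with
  | zero => rw [zero_add, mul_comm]
  | succ i ih =>
    by_cases hi : i + 1 ≤ n
    · have hpos : 0 < N k n i := N_pos hk (by omega)
      have h1 := nat_concave hk h i
      apply Nat.le_of_mul_le_mul_left _ hpos
      calc N k n i * (N k n (i + 1 + 1) * N k n 0)
          = (N k n i * N k n (i + 2)) * N k n 0 := by rw [mul_assoc]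
        _ ≤ N k n (i + 1) ^ 2 * N k n 0 := Nat.mul_le_mul_right _ h1
        _ = N k n (i + 1) * (N k n (i + 1) * N k n 0) := by ring
        _ ≤ N k n (i + 1) * (N k n i * N k n 1) := Nat.mul_le_mul_left _ ih
        _ = N k n i * (N k n (i + 1) * N k n 1) := by ring
    · rw [N_eq_zero (i := i + 1 + 1) (by omega), zero_mul]
      exact Nat.zero_le _

lemma growth (hk : 2 ≤ k) (h : IsLogConcave (prob k n)) (R : ℕ) (hR : N k n 1 ≤ R * N k n 0)
    (i : ℕ) : N k n i ≤ R ^ i * N k n 0 := by
  induction i with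
  | zero => rw [pow_zero, one_mul]
  | succ i ih =>
    have hpos : 0 < N k n 0 := N_pos hk (Nat.zero_le _)
    have h1 : N k n (i + 1) ≤ R * N k n i := by
      apply Nat.le_of_mul_le_mul_right _ hpos
      calc N k n (i + 1) * N k n 0 ≤ N k n i * N k n 1 := ratio hk h i
        _ ≤ N k n i * (R * N k n 0) := Nat.mul_le_mul_left _ hR
        _ = R * N k n i * N k n 0 := by ring
    calc N k n (i + 1) ≤ R * N k n i := h1
      _ ≤ R * (R ^ i * N k n 0) := Nat.mul_le_mul_left _ ih
      _ = R ^ (i + 1) * N k n 0 := by ring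

lemma total_le (hk : 2 ≤ k) (h : IsLogConcave (prob k n)) (R : ℕ) (hR1 : 1 ≤ R)
    (hR : N k n 1 ≤ R * N k n 0) (m : ℕ) (hm : m ≤ n) (hC : 2 * (n.choose m) ^ 2 ≤ k ^ m) :
    k ^ n * k ^ n ≤ 2 * (m * (R ^ m * N k n 0)) := by
  classical
  have htot : (univ : Finset (Word k n × Word k n)).card = k ^ n * k ^ n := by
    rw [Finset.card_univ, Fintype.card_prod, Fintype.card_fun, Fintype.card_fin, Fintype.card_fin]
  have hsplit := Finset.card_filter_add_card_filter_not
    (s := (univ : Finset (Word k n × Word k n))) (fun p => m ≤ lcs p.1 p.2)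
  have h1 : (univ.filter fun p : Word k n × Word k n => ¬ m ≤ lcs p.1 p.2).card ≤
      m * (R ^ m * N k n 0) := by
    calc (univ.filter fun p : Word k n × Word k n => ¬ m ≤ lcs p.1 p.2).card
        ≤ ((Finset.range m).biUnion fun i =>
            univ.filter fun p : Word k n × Word k n => lcs p.1 p.2 = i).card := by
          apply Finset.card_le_card
          intro p hp
          have h := (Finset.mem_filter.mp hp).2
          rw [Finset.mem_biUnion]
          exact ⟨lcs p.1 p.2, Finset.mem_range.mpr (not_le.mp h),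
            Finset.mem_filter.mpr ⟨Finset.mem_univ _, rfl⟩⟩
      _ ≤ (Finset.range m).card * (R ^ m * N k n 0) := by
          apply Finset.card_biUnion_le_card_mul
          intro i hi
          refine le_trans (growth hk h R hR i) ?_
          exact Nat.mul_le_mul_right _ (Nat.pow_le_pow_right hR1 (Finset.mem_range.mp hi).le)
      _ = m * (R ^ m * N k n 0) := by rw [Finset.card_range]
  have h2 : 2 * (univ.filter fun p : Word k n × Word k n => m ≤ lcs p.1 p.2).card ≤
      k ^ n * k ^ n := by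
    calc 2 * (univ.filter fun p : Word k n × Word k n => m ≤ lcs p.1 p.2).card
        ≤ 2 * ((n.choose m) ^ 2 * (k ^ n * k ^ (n - m))) :=
          Nat.mul_le_mul_left _ (card_tail_le m)
      _ = (2 * (n.choose m) ^ 2) * (k ^ n * k ^ (n - m)) := by ring
      _ ≤ k ^ m * (k ^ n * k ^ (n - m)) := Nat.mul_le_mul_right _ hC
      _ = k ^ n * (k ^ m * k ^ (n - m)) := by ring
      _ = k ^ n * k ^ n := by
          rw [← pow_add k m (n - m), Nat.add_sub_cancel' hm]
  rw [htot] at hsplit
  omega

end concave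

/-! ### numerical estimates -/

section numbers

lemma two_pow_le (b : ℕ) : 2 * b ^ (b + 1) ≤ (b + 1) ^ (b + 1) := by
  rcases Nat.eq_zero_or_pos b with rfl | hb
  · simp
  · have hb' : (0 : ℝ) < b := by exact_mod_cast hb
    have h := one_add_mul_le_pow (a := (1 : ℝ) / b) (by
      have : (0 : ℝ) < 1 / b := by positivity
      linarith) (b + 1)
    have h2 : (2 : ℝ) ≤ (1 + 1 / b) ^ (b + 1) := by
      refine le_trans ?_ h
      have : (1 : ℝ) ≤ ((b + 1 : ℕ) : ℝ) * (1 / b) := by
        rw [mul_one_div, le_div_iff₀ hb']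
        push_cast
        linarith
      linarith
    have h3 : (2 : ℝ) * (b : ℝ) ^ (b + 1) ≤ ((b : ℝ) + 1) ^ (b + 1) := by
      have h4 : ((b : ℝ) + 1) = (1 + 1 / b) * b := by field_simp
      rw [h4, mul_pow]
      exact mul_le_mul_of_nonneg_right h2 (by positivity)
    exact_mod_cast h3

lemma pred_pow_le (a n j : ℕ) (ha : 1 ≤ a) (hn : a * j ≤ n) :
    (a - 1) ^ n * 2 ^ j ≤ a ^ n := by
  obtain ⟨b, rfl⟩ : ∃ b, a = b + 1 := ⟨a - 1, by omega⟩
  obtain ⟨c, rfl⟩ : ∃ c, n = (b + 1) * j + c := ⟨n - (b + 1) * j, by omega⟩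
  rw [Nat.add_sub_cancel, pow_add, pow_add, pow_mul, pow_mul]
  calc (b ^ (b + 1)) ^ j * b ^ c * 2 ^ j = (2 * b ^ (b + 1)) ^ j * b ^ c := by
        rw [mul_pow]; ring
    _ ≤ ((b + 1) ^ (b + 1)) ^ j * (b + 1) ^ c :=
        Nat.mul_le_mul (Nat.pow_le_pow_left (two_pow_le b) j)
          (Nat.pow_le_pow_left (by omega) c)

lemma pow_self_le (m : ℕ) : m ^ m ≤ 3 ^ m * m.factorial := by
  have h := Real.pow_div_factorial_le_exp (m : ℝ) (by positivity) m
  have h2 : Real.exp (m : ℝ) ≤ 3 ^ m := by
    rw [← Real.exp_one_pow]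
    exact pow_le_pow_left₀ (Real.exp_pos 1).le Real.exp_one_lt_three.le m
  have h3 : (m : ℝ) ^ m ≤ 3 ^ m * (m.factorial : ℝ) := by
    rw [div_le_iff₀ (by positivity)] at h
    exact h.trans (mul_le_mul_of_nonneg_right h2 (by positivity))
  exact_mod_cast h3

lemma choose_bound (q m n : ℕ) (hq : 1 ≤ q) (hm : m = 4 * q ^ 5) (hn : n = q ^ 6) :
    2 * (n.choose m) ^ 2 ≤ (q ^ 2) ^ m := by
  have h1 : n.choose m * m.factorial ≤ n ^ m := by
    rw [mul_comm, ← Nat.descFactorial_eq_factorial_mul_choose]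
    exact Nat.descFactorial_le_pow n m
  have h2 : n.choose m * m ^ m ≤ 3 ^ m * n ^ m := by
    calc n.choose m * m ^ m ≤ n.choose m * (3 ^ m * m.factorial) :=
          Nat.mul_le_mul_left _ (pow_self_le m)
      _ = 3 ^ m * (n.choose m * m.factorial) := by ring
      _ ≤ 3 ^ m * n ^ m := Nat.mul_le_mul_left _ h1
  have e1 : m ^ m = (q ^ 5) ^ m * 4 ^ m := by
    have : m = q ^ 5 * 4 := by rw [hm]; ring
    calc m ^ m = (q ^ 5 * 4) ^ m := congrArg (fun x => x ^ m) this
      _ = _ := mul_pow _ _ _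
  have e2 : n ^ m = (q ^ 5) ^ m * q ^ m := by
    have : n = q ^ 5 * q := by rw [hn]; ring
    calc n ^ m = (q ^ 5 * q) ^ m := congrArg (fun x => x ^ m) this
      _ = _ := mul_pow _ _ _
  rw [e1, e2] at h2
  have hpos : 0 < (q ^ 5) ^ m := by positivity
  have h3 : n.choose m * 4 ^ m ≤ 3 ^ m * q ^ m := by
    apply Nat.le_of_mul_le_mul_left _ hpos
    calc (q ^ 5) ^ m * (n.choose m * 4 ^ m) = n.choose m * ((q ^ 5) ^ m * 4 ^ m) := by ring
      _ ≤ 3 ^ m * ((q ^ 5) ^ m * q ^ m) := h2
      _ = (q ^ 5) ^ m * (3 ^ m * q ^ m) := by ring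
  have h4 : (n.choose m) ^ 2 * 16 ^ m ≤ 9 ^ m * (q ^ 2) ^ m := by
    calc (n.choose m) ^ 2 * 16 ^ m = (n.choose m * 4 ^ m) ^ 2 := by
          rw [mul_pow, ← pow_mul, mul_comm m 2, pow_mul]
          norm_num
      _ ≤ (3 ^ m * q ^ m) ^ 2 := Nat.pow_le_pow_left h3 2
      _ = 9 ^ m * (q ^ 2) ^ m := by
          rw [mul_pow, ← pow_mul, ← pow_mul, mul_comm m 2, pow_mul, pow_mul]
          norm_num
  have h5 : 2 * 9 ^ m ≤ 16 ^ m := by
    have hm2 : 2 ≤ m := by
      rw [hm]
      have : 1 ≤ q ^ 5 := Nat.one_le_pow _ _ hq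
      omega
    obtain ⟨m', rfl⟩ : ∃ m', m = 2 + m' := ⟨m - 2, by omega⟩
    rw [pow_add, pow_add]
    have : 9 ^ m' ≤ 16 ^ m' := Nat.pow_le_pow_left (by norm_num) m'
    omega
  have hpos2 : 0 < 16 ^ m := by positivity
  apply Nat.le_of_mul_le_mul_right _ hpos2
  calc 2 * (n.choose m) ^ 2 * 16 ^ m = 2 * ((n.choose m) ^ 2 * 16 ^ m) := by ring
    _ ≤ 2 * (9 ^ m * (q ^ 2) ^ m) := Nat.mul_le_mul_left _ h4
    _ = (2 * 9 ^ m) * (q ^ 2) ^ m := by ring
    _ ≤ 16 ^ m * (q ^ 2) ^ m := Nat.mul_le_mul_right _ h5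
    _ = (q ^ 2) ^ m * 16 ^ m := by ring

lemma lin_le_two_pow (t : ℕ) (ht : 9 ≤ t) : 36 * t + 2 ≤ 2 ^ t := by
  induction t, ht using Nat.le_induction with
  | base => norm_num
  | succ t ht ih =>
    rw [pow_succ]
    omega

lemma prod_le_sq {a b h : ℕ} (e : a + b = 2 * h) : a * b ≤ h * h := by
  have e' : (a : ℤ) + b = 2 * h := by exact_mod_cast e
  have : (a : ℤ) * b ≤ h * h := by
    have hb : (b : ℤ) = 2 * h - a := by linarith
    rw [hb]
    nlinarith [sq_nonneg ((a : ℤ) - h)]
  exact_mod_cast this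

lemma prod_le_pred {a b h : ℕ} (e : a + b = 2 * h) (hb : 1 ≤ b) :
    a * (b - 1) ≤ h * (h - 1) := by
  have hh : 1 ≤ h := by omega
  obtain ⟨c, rfl⟩ : ∃ c, b = c + 1 := ⟨b - 1, by omega⟩
  obtain ⟨g, rfl⟩ : ∃ g, h = g + 1 := ⟨h - 1, by omega⟩
  rw [Nat.add_sub_cancel, Nat.add_sub_cancel]
  have e' : (a : ℤ) + c = 2 * g + 1 := by
    have : a + c = 2 * g + 1 := by omega
    exact_mod_cast this
  have : (a : ℤ) * c ≤ (g + 1) * g := by
    have hc : (c : ℤ) = 2 * g + 1 - a := by linarith
    rw [hc]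
    have h1 : 0 ≤ ((a : ℤ) - g) * (a - g - 1) := by
      rcases le_or_gt (a : ℤ) g with h2 | h2
      · nlinarith
      · have h3 : (g : ℤ) + 1 ≤ a := h2
        nlinarith
    nlinarith
  exact_mod_cast this

lemma X_eq (t e : ℕ) :
    4 * (2 ^ e * (2 ^ (2 * t) * (2 ^ (2 * t) * (2 ^ (6 * t) *
      ((2 ^ (6 * t)) ^ e * (2 ^ (6 * t)) ^ e)))) *
      ((2 ^ (2 * t)) ^ e * (2 ^ (2 * t)) ^ e)) = 2 ^ (2 + e + 10 * t + 16 * (t * e)) := by
  have h4 : (4 : ℕ) = 2 ^ 2 := by norm_num
  rw [h4]
  simp only [← pow_mul, ← pow_add]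
  congr 1
  ring

end numbers

/-! ### assembly -/

section final

lemma F_le {k n h : ℕ} (hk : k = 2 * h) : F k n ≤ 2 ^ k * (h * h) ^ n := by
  classical
  unfold F
  calc ∑ S : Finset (Fin k), S.card ^ n * Sᶜ.card ^ n
      ≤ ∑ _S : Finset (Fin k), (h * h) ^ n := by
        apply Finset.sum_le_sum
        intro S _
        rw [← mul_pow]
        apply Nat.pow_le_pow_left
        apply prod_le_sq
        rw [Finset.card_add_card_compl, Fintype.card_fin, hk]
    _ = 2 ^ k * (h * h) ^ n := by
        rw [Finset.sum_const, Finset.card_univ, Fintype.card_finset, Fintype.card_fin,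
          smul_eq_mul]

lemma le_F {k n h : ℕ} (hk : k = 2 * h) : (h * h) ^ n ≤ F k n := by
  classical
  unfold F
  obtain ⟨S, _, hS⟩ := Finset.exists_subset_card_eq (s := (univ : Finset (Fin k))) (n := h) (by
    rw [Finset.card_univ, Fintype.card_fin]
    omega)
  have h2 : Sᶜ.card = h := by
    rw [Finset.card_compl, Fintype.card_fin, hS]
    omega
  calc (h * h) ^ n = S.card ^ n * Sᶜ.card ^ n := by rw [hS, h2, mul_pow]
    _ ≤ ∑ S : Finset (Fin k), S.card ^ n * Sᶜ.card ^ n :=
        Finset.single_le_sum (f := fun S : Finset (Fin k) => S.card ^ n * Sᶜ.card ^ n)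
          (fun _ _ => Nat.zero_le _) (Finset.mem_univ S)

theorem main (t : ℕ) (ht : 9 ≤ t) (q k n h m : ℕ) (hq : q = 2 ^ t) (hk : k = q ^ 2)
    (hn : n = q ^ 6) (hh : k = 2 * h) (hm : m = 4 * q ^ 5) :
    ¬ IsLogConcave (prob k n) := by
  intro hlc
  have hqt : 36 * t + 2 ≤ q := hq ▸ lin_le_two_pow t ht
  have hq1 : 1 ≤ q := by omega
  have hk2 : k = 2 ^ (2 * t) := by rw [hk, hq, ← pow_mul, mul_comm]
  have hn2 : n = 2 ^ (6 * t) := by rw [hn, hq, ← pow_mul, mul_comm]
  have hkq : q ≤ k := by
    rw [hk, sq]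
    exact Nat.le_mul_of_pos_left _ hq1
  have hkt : 36 * t + 2 ≤ k := hqt.trans hkq
  have hkn : k < n := by
    rw [hk, hn]
    exact Nat.pow_lt_pow_right (by omega) (by norm_num)
  have hh1 : 1 ≤ h := by omega
  have hn3 : n = k * (k * k) := by rw [hn, hk]; ring
  have hmn : m ≤ n := by
    rw [hm, hn]
    calc 4 * q ^ 5 ≤ q * q ^ 5 := Nat.mul_le_mul_right _ (by omega)
      _ = q ^ 6 := by ring
  -- `F ≤ 2 N_0`
  have hF : F k n ≤ 2 * N k n 0 := by
    apply F_le_two_N_zero (by omega)
    intro a ha hak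
    have h1 : a * k ≤ n := by
      rw [hn3]
      exact Nat.mul_le_mul hak (Nat.le_mul_of_pos_left _ (by omega))
    have h2 := pred_pow_le a n k ha h1
    have h3 : 2 * a ≤ 2 ^ k := by
      have h4 : k < 2 ^ k := Nat.lt_two_pow_self
      obtain ⟨k', rfl⟩ : ∃ k', k = k' + 1 := ⟨k - 1, by omega⟩
      have h5 : k' < 2 ^ k' := Nat.lt_two_pow_self
      rw [pow_succ]
      omega
    calc 2 * a * (a - 1) ^ n ≤ 2 ^ k * (a - 1) ^ n := Nat.mul_le_mul_right _ h3
      _ = (a - 1) ^ n * 2 ^ k := mul_comm _ _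
      _ ≤ a ^ n := h2
  -- bound for `N_1`
  have hN1 := N_one_le (k := k) (n := n) (by omega) hkn (by omega) ((h * (h - 1)) ^ n) (by
    intro a b hab hb
    rw [← mul_pow]
    apply Nat.pow_le_pow_left
    exact prod_le_pred (by omega) hb)
  have hcase : 2 * (2 ^ k * (k * (k * (n * (n ^ k * n ^ k)))) *
      (k ^ k * k ^ k * (h * (h - 1)) ^ n)) ≤ N k n 0 := by
    have hX := X_eq t k
    rw [← hk2, ← hn2] at hX
    have hD : (h * (h - 1)) ^ n * 2 ^ (8 * (h * h)) ≤ (h * h) ^ n := by
      have h1 := pred_pow_le h n (8 * (h * h)) hh1 (by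
        rw [hn3, hh]
        apply le_of_eq
        ring)
      calc (h * (h - 1)) ^ n * 2 ^ (8 * (h * h))
          = h ^ n * ((h - 1) ^ n * 2 ^ (8 * (h * h))) := by rw [mul_pow]; ring
        _ ≤ h ^ n * h ^ n := Nat.mul_le_mul_left _ h1
        _ = (h * h) ^ n := (mul_pow _ _ _).symm
    have hexp : 2 + k + 10 * t + 16 * (t * k) ≤ 8 * (h * h) := by
      have e : 8 * (h * h) = 2 * (k * k) := by rw [hh]; ring
      rw [e]
      nlinarith
    have h2 : 4 * (2 ^ k * (k * (k * (n * (n ^ k * n ^ k)))) * (k ^ k * k ^ k)) ≤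
        2 ^ (8 * (h * h)) := by
      rw [hX]
      exact Nat.pow_le_pow_right (by norm_num) hexp
    have h3 : 2 * (2 * (2 ^ k * (k * (k * (n * (n ^ k * n ^ k)))) *
        (k ^ k * k ^ k * (h * (h - 1)) ^ n))) ≤ 2 * N k n 0 := by
      calc 2 * (2 * (2 ^ k * (k * (k * (n * (n ^ k * n ^ k)))) *
          (k ^ k * k ^ k * (h * (h - 1)) ^ n)))
          = (h * (h - 1)) ^ n *
            (4 * (2 ^ k * (k * (k * (n * (n ^ k * n ^ k)))) * (k ^ k * k ^ k))) := by ring
        _ ≤ (h * (h - 1)) ^ n * 2 ^ (8 * (h * h)) := Nat.mul_le_mul_left _ h2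
        _ ≤ (h * h) ^ n := hD
        _ ≤ F k n := le_F hh
        _ ≤ 2 * N k n 0 := hF
    exact Nat.le_of_mul_le_mul_left h3 (by norm_num)
  have hR : N k n 1 ≤ q ^ 18 * N k n 0 := by
    calc N k n 1 ≤ (1 + n * k) ^ 2 * F k n + 2 * (2 ^ k * (k * (k * (n * (n ^ k * n ^ k)))) *
          (k ^ k * k ^ k * (h * (h - 1)) ^ n)) := hN1
      _ ≤ (1 + n * k) ^ 2 * (2 * N k n 0) + N k n 0 :=
          Nat.add_le_add (Nat.mul_le_mul_left _ hF) hcase
      _ = (2 * (1 + n * k) ^ 2 + 1) * N k n 0 := by ring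
      _ ≤ q ^ 18 * N k n 0 := by
          apply Nat.mul_le_mul_right
          have e1 : n * k = q ^ 8 := by rw [hn, hk]; ring
          rw [e1]
          have e2 : 1 ≤ q ^ 8 := Nat.one_le_pow _ _ hq1
          have e3 : 9 ≤ q ^ 2 := by nlinarith
          have e4 : q ^ 18 = q ^ 2 * (q ^ 8 * q ^ 8) := by ring
          rw [e4]
          nlinarith [Nat.mul_le_mul_right (q ^ 8 * q ^ 8) e3, Nat.mul_le_mul e2 e2]
  have hC : 2 * (n.choose m) ^ 2 ≤ k ^ m := by
    rw [hk]
    exact choose_bound q m n hq1 hm hn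
  have htot := total_le (by omega) hlc (q ^ 18) (Nat.one_le_pow _ _ hq1) hR m hmn hC
  -- the final contradiction
  have hN0 : N k n 0 ≤ 2 ^ k * (h * h) ^ n := N_zero_le_F.trans (F_le hh)
  have h4 : 4 ^ n * (h * h) ^ n ≤ (2 * m * (q ^ 18) ^ m * 2 ^ k) * (h * h) ^ n := by
    calc 4 ^ n * (h * h) ^ n = k ^ n * k ^ n := by
          rw [← mul_pow, ← mul_pow, hh]
          congr 1
          ring
      _ ≤ 2 * (m * ((q ^ 18) ^ m * N k n 0)) := htot
      _ ≤ 2 * (m * ((q ^ 18) ^ m * (2 ^ k * (h * h) ^ n))) :=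
          Nat.mul_le_mul_left _ (Nat.mul_le_mul_left _ (Nat.mul_le_mul_left _ hN0))
      _ = (2 * m * (q ^ 18) ^ m * 2 ^ k) * (h * h) ^ n := by ring
  have h5 : 4 ^ n ≤ 2 * m * (q ^ 18) ^ m * 2 ^ k :=
    Nat.le_of_mul_le_mul_right h4 (by positivity)
  have h6 : 2 * m * (q ^ 18) ^ m * 2 ^ k = 2 ^ (3 + 5 * t + 18 * (t * m) + k) := by
    have e1 : m = 2 ^ (2 + 5 * t) := by
      rw [hm, hq, pow_add, ← pow_mul, mul_comm t 5]
      norm_num
    have e2 : q ^ 18 = 2 ^ (18 * t) := by rw [hq, ← pow_mul, mul_comm]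
    have e3 : ∀ x : ℕ, 2 * 2 ^ (2 + 5 * t) * (2 ^ (18 * t)) ^ x * 2 ^ k =
        2 ^ (3 + 5 * t + 18 * (t * x) + k) := by
      intro x
      rw [← pow_mul]
      have : (2 : ℕ) * 2 ^ (2 + 5 * t) = 2 ^ (3 + 5 * t) := by
        rw [← pow_succ']
        congr 1
        ring
      rw [this, ← pow_add, ← pow_add, mul_assoc 18 t x]
    have e4 := e3 m
    rw [← e1, ← e2] at e4
    exact e4
  have h7 : (4 : ℕ) ^ n = 2 ^ (2 * n) := by
    rw [pow_mul]
    norm_num
  rw [h6, h7] at h5
  have h8 : 2 * n ≤ 3 + 5 * t + 18 * (t * m) + k :=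
    (Nat.pow_le_pow_iff_right (by norm_num)).mp h5
  have h9 : 3 + 5 * t + 18 * (t * m) + k < 2 * n := by
    have e1 : 2 * n = 2 * q * q ^ 5 := by rw [hn]; ring
    have e2 : 18 * (t * m) = 72 * t * q ^ 5 := by rw [hm]; ring
    have e3 : (72 * t + 4) * q ^ 5 ≤ 2 * q * q ^ 5 := Nat.mul_le_mul_right _ (by omega)
    have e4 : k ≤ q ^ 5 := by
      rw [hk]
      exact Nat.pow_le_pow_right hq1 (by norm_num)
    have e5 : q ≤ q ^ 5 := by
      calc q = q ^ 1 := (pow_one q).symm
        _ ≤ q ^ 5 := Nat.pow_le_pow_right hq1 (by norm_num)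
    rw [e1, e2]
    have e6 : (72 * t + 4) * q ^ 5 = 72 * t * q ^ 5 + 4 * q ^ 5 := by ring
    omega
  omega

end final

/-- For every `t ≥ 9`, the length of a longest common subsequence of two independent uniformly
random words of length `n = (4 ^ t) ^ 3` over an alphabet with `k = 4 ^ t` letters is not
log-concave: there is an integer `i` with `P(L = i - 1) P(L = i + 1) > P(L = i) ^ 2`. -/
theorem result (t : ℕ) (ht : 9 ≤ t) :
    ∃ i : ℤ, prob (4 ^ t) ((4 ^ t) ^ 3) i ^ 2 <
      prob (4 ^ t) ((4 ^ t) ^ 3) (i - 1) * prob (4 ^ t) ((4 ^ t) ^ 3) (i + 1) := by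
  have e4 : (4 : ℕ) ^ t = (2 ^ t) ^ 2 := by
    rw [← pow_mul, mul_comm, pow_mul]
    norm_num
  have h := main t ht (2 ^ t) (4 ^ t) ((4 ^ t) ^ 3) (2 * 4 ^ (t - 1)) (4 * (2 ^ t) ^ 5) rfl e4
    (by rw [e4, ← pow_mul]) (by
      obtain ⟨s, rfl⟩ : ∃ s, t = s + 1 := ⟨t - 1, by omega⟩
      rw [Nat.add_sub_cancel, pow_succ]
      ring) rfl
  unfold IsLogConcave at h
  push Not at h
  exact h

end Pool.Agent.Results.MP_122049_pr.LargeAlphabet
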